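import Mathlib
import Pool.Agent.E8helper65.WD.Main

/-!
# Étale motivic cohomology in the weight of the dimension: products of arbitrary varieties over finite
fields with abelian varieties of maximal angle rank, and so of almost all slope types of all CM fields

Let `K i` (`i` in a finite set) be CM fields, and let `π i` be Weil numbers for `q = p ^ a` that
generate the fields `K i`, such that the only multiplicative relations between the conjugates of the
`π i` and `q` are the trivial ones given by `π * conj π = q` (`MaximalAngleRank`). Let `A` be an
abelian variety over the field with `Q = q ^ s` elements which is isogenous to a product of powers of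
abelian varieties coming from the field with `q` elements, with characteristic polynomials of
Frobenius all of whose roots are conjugates of the `π i` (`IsPolyOf`; `A` is given by its Chow ring,
cohomology and correspondences, `IsAbelian`). Let `Z` be **any** connected smooth projective variety
over the field with `Q` elements such that the Frobenius endomorphism of `Z` satisfies, on the motivic
cohomology of `A × Z`, a polynomial with rational coefficients all of whose complex roots `ρ` are
unrelated to the fields `K i` (`Unrelated`): a function `n` on the complex embeddings of `K i` with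
`n (conj φ) = - n φ` which is invariant under all automorphisms of `ℂ` that fix a power of `ρ` is zero.
(If the motive of `Z` is finite-dimensional in the sense of Kimura, for instance if `Z` is dominated by
a product of curves, this is a condition on the Frobenius eigenvalues of the cohomology of `Z`. It
holds if a power of each `ρ` lies in a field linearly disjoint from the normal closures of the `K i`,
or in a totally real field. No form of the Tate conjecture or of Parshin's conjecture is assumed for
`Z`.) Let `a = dim A`, `e = dim Z` and `d = a + e`.

**Theorem.** The groups `H^i((A × Z)_et, ℤ(d))` are finitely generated for all `i ≤ 2 d` if and only if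
the groups `H^i((ℙ^a × Z)_et, ℤ(d))` are finitely generated for all `i ≤ 2 d`, that is:

  **Q1 holds for `A × Z` if and only if it holds for `ℙ^a × Z`,**

and if and only if `H^i(Z, ℚ(n)) = 0` for `i < 2 n`, `e ≤ n ≤ e + a`. So `A` behaves like the projective
space of the same dimension, with respect to all varieties `Z` unrelated to it.

(`IsWeightDim` is the known relation between the groups `H^i(X_et, ℤ(d))` and `H^i(X, ℚ(d))` for a
connected smooth projective scheme `X` of dimension `d` over a finite field.)

The second part of the theorem says that the angle rank is maximal for almost all slope types of all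
CM fields, so that the theorem applies to them. We fix an isomorphism `ν` of the algebraic closure of
`ℚ_p` with `ℂ`. Let `K i` be pairwise independent CM fields of degree `2 g i` (for `i ≠ k` and all
complex embeddings `φ` of `K i` and `ψ` of `K k` some automorphism of `ℂ` is the identity on
`φ (K i)` and the complex conjugation on `ψ (K k)`), and let `M i` be a function with nonzero
integral values, all of which divide `n i`, on the complex embeddings of `K i`, invariant under
complex conjugation. A CM type `Φ i` of `K i`, `M i` and a real number `κ ≠ 0` prescribe the slopes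
`(a + κ M) / 2` (at the embeddings in `Φ i`) and `(a - κ M) / 2` (outside of `Φ i`) of a Weil number for
`p ^ a` in `K i` (`HasType`). There are `2 ^ (∑ i, g i)` families of CM types. A family is exceptional
(`exceptionalFamilies`) if the theorem above is false for some Weil numbers with these slope types.
The number of the exceptional families is at most
`2 ^ (∑ i, g i) * ∑ i, C * (n i) ^ 2 * rate (K i) (g i) (q i)`, with an absolute constant `C`. Here
`q i` is any prime factor of `g i` (or `q i = 1`), and `rate K g q` is `(1 + log (2 g)) ^ 16` times
the smaller of the numbers `W (K) / √g` and `√g / q`, where (third part, `WeightEstimate`)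
`W (K) ≤ N ^ 2 * D ^ (1 / 4)`; `N` is the number of the CM subfields of `K` and `D` is the largest
degree of a CM subfield of `K` that is normal over `ℚ` with a nonabelian Galois group.

The bound for the number of the types without maximal angle rank is in the starting files
(`Pool/Agent/Y1`), and the Kunneth formula is proved as in the starting files (`Pool/Agent/Y156`). The
nilpotence of homologically trivial correspondences is used only for `A` (theorem of Kimura).
-/

set_option autoImplicit false

namespace Pool.Agent.Results.MP_b197b4_nt.TimesUnrelatedH65

open NumberField Module IntermediateField Polynomial Pool.Agent.H204R3.CM Pool.Agent.H977R3.CM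
  Pool.Agent.TH170 Pool.Agent.Y1.KN Pool.Agent.Y1.CT Pool.Agent.Y1.TS Pool.Agent.Y137.MV
  Pool.Agent.E8helper65.RT Pool.Agent.E8helper65.WD

/-- The theorem on `A × Z` and `ℙ^(dim A) × Z` holds for all abelian varieties `A` whose Frobenius
eigenvalues are powers of conjugates of the Weil numbers `π i`, and all `Z` unrelated to the fields
`K i`. -/
def HoldsFor (p a : ℕ) {I : Type} (K : I → Type) [∀ i, Field (K i)] (π : ∀ i, K i) : Prop :=
  ∀ f : I → ℤ[X], (∀ i, IsPolyOf (π i) (f i)) → WeightTimes (Unrelated K) (p ^ a) f

/-- The exceptional families of CM types. -/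
def exceptionalFamilies {p : ℕ} [Fact p.Prime] (ν : PadicAlgCl p ≃+* ℂ) {I : Type} [Fintype I]
    (K : I → Type) [∀ i, Field (K i)] [∀ i, NumberField (K i)] [∀ i, IsCMField (K i)]
    (M : ∀ i, (K i →+* ℂ) → ℤ) : Set (∀ i, Set (K i →+* ℂ)) :=
  {Φ | (∀ i, IsCMType (Φ i)) ∧ ¬ ForAllWeil ν K M (fun a π => HoldsFor p a K π) Φ}

/-- **Q1 holds for `A × Z` if and only if it holds for `ℙ^(dim A) × Z`**, for the abelian varieties `A`
of maximal angle rank, hence of almost all slope types of all CM fields, and all unrelated `Z`. -/
theorem result :
    (∀ (p : ℕ) [Fact p.Prime] (a : ℕ) (_ : 0 < a) (I : Type) [Fintype I] (K : I → Type)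
      [∀ i, Field (K i)] [∀ i, NumberField (K i)] [∀ i, IsCMField (K i)] (π : ∀ i, K i),
      (∀ i, ℚ⟮π i⟯ = ⊤) → (∀ i, π i * IsCMField.complexConj (K i) (π i) = (p : K i) ^ a) →
      MaximalAngleRank (p ^ a) π → HoldsFor p a K π) ∧
    (∃ C : ℝ, 0 ≤ C ∧ ∀ (p : ℕ) [Fact p.Prime] (ν : PadicAlgCl p ≃+* ℂ) (I : Type) [Fintype I]
      (K : I → Type) [∀ i, Field (K i)] [∀ i, NumberField (K i)] [∀ i, IsCMField (K i)]
      (M : ∀ i, (K i →+* ℂ) → ℤ) (n g q : I → ℕ), PairwiseIndep K →
      (∀ i φ, M i (ComplexEmbedding.conjugate φ) = M i φ) → (∀ i, n i ≠ 0) →
      (∀ i φ, M i φ ∣ (n i : ℤ)) → (∀ i, finrank ℚ (K i) = 2 * g i) →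
      (∀ i, q i ∣ g i ∧ (q i = 1 ∨ (q i).Prime)) →
      ((exceptionalFamilies ν K M).ncard : ℝ) ≤
        2 ^ (∑ i, g i) * ∑ i, C * (n i : ℝ) ^ 2 * rate (K i) (g i) (q i)) ∧
    WeightEstimate := by
  have key : ∀ (p : ℕ) [Fact p.Prime] (a : ℕ) (_ : 0 < a) (I : Type) [Fintype I] (K : I → Type)
      [∀ i, Field (K i)] [∀ i, NumberField (K i)] [∀ i, IsCMField (K i)] (π : ∀ i, K i),
      (∀ i, ℚ⟮π i⟯ = ⊤) → (∀ i, π i * IsCMField.complexConj (K i) (π i) = (p : K i) ^ a) →
      MaximalAngleRank (p ^ a) π → HoldsFor p a K π := by
    intro p _ a ha I _ K _ _ _ π _ hw hang f hf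
    exact weightTimes (Nat.one_lt_pow ha.ne' (Fact.out : p.Prime).one_lt) (noRel_of_angle hang hw f hf)
      (unrelated_zero K)
  obtain ⟨C, hC0, hC⟩ := ncard_of_angle
  refine ⟨key, ⟨C, hC0, ?_⟩, weight_estimate_holds⟩
  intro p _ ν I _ K _ _ _ M n g q hind hM hn hMn hg hq
  exact hC p ν I K M n g q hind hM hn hMn hg hq _ fun a π ha hgen hw hang =>
    key p a ha I K π hgen hw hang

end Pool.Agent.Results.MP_b197b4_nt.TimesUnrelatedH65
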